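import Pool.Agent.W_e8e3a0.RateG49
import Pool.Agent.W_e8e3a0.Lower49

set_option autoImplicit false

open Pool.Agent.W_e8e3a0

namespace Pool.Agent.Results.MP_e8e3a0_co.AlmostAll

/-- Almost all caterpillars with an odd number `n` of vertices are splittable: among the
`2 ^ (n - 3)` spine degree sequences the proportion of those which belong to non-splittable
caterpillars has exact order `1 / n`; no caterpillar with an even number of vertices is
splittable. -/
theorem result :
    (∀ n : ℕ, 3 ≤ n → (DegSeqs n).ncard = 2 ^ (n - 3)) ∧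
    (∀ (V : Type) [Fintype V] (G : SimpleGraph V) (s : ℕ) (v : Fin s → V), 0 < s →
      IsSpine G v → Even (Fintype.card V) → ¬ Splittable G) ∧
    (∀ n : ℕ, 3 ≤ n → Odd n →
      ((NonSplitSeqs n).ncard : ℝ) ≤ 500000000 / n * ((DegSeqs n).ncard : ℝ)) ∧
    (∀ n : ℕ, 66 ≤ n → (DegSeqs n).ncard ≤ 10000 * n * (NonSplitSeqs n).ncard) :=
  ⟨degSeqs_card, fun _ _ _ _ _ hs h he => even_none hs h he, rate_g, lower_bound⟩

end Pool.Agent.Results.MP_e8e3a0_co.AlmostAll
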