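import Pool.Agent.W_e8e3a0.Two49
import Pool.Agent.W_e8e3a0.ParityM49

set_option autoImplicit false

open Finset Pool.Agent.W_e8e3a0

namespace Pool.Agent.Results.MP_e8e3a0_co.FactorTwo

/-- Splittable caterpillars: a condition on the spine degrees which is necessary for every
caterpillar (1), sufficient when the spine degrees differ by a factor at most `2` or take at most
two values (2), and reduces
to the parity of the number of edges when the spine is odd and its odd degrees together with one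
even degree are narrow (3); the factor `2` is optimal (4). A sufficient condition of parity, which
does not depend on the order of the spine (5). -/
theorem result :
    (∀ (V : Type) [Fintype V] (G : SimpleGraph V) (s : ℕ) (v : Fin s → V), 0 < s → IsSpine G v →
      (Splittable G → Even G.edgeSet.ncard ∧ (Odd s ∨ ∃ A B : Finset (Fin s), Disjoint A B ∧
        ∑ i ∈ A, deg G (v i) = ∑ i ∈ B, deg G (v i) + 1 ∧
        (A.card = B.card + 1 ∨ (A.card = B.card ∧
          ((∀ i, i ∈ A ∪ B) ∨ ∃ i, i ∉ A ∪ B ∧ Even (deg G (v i))))))) ∧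
      (((∀ i j, deg G (v i) ≤ 2 * deg G (v j)) ∨
          ∃ a b : ℕ, ∀ i, deg G (v i) = a ∨ deg G (v i) = b) →
        (Even G.edgeSet.ncard ∧ (Odd s ∨ ∃ A B : Finset (Fin s), Disjoint A B ∧
          ∑ i ∈ A, deg G (v i) = ∑ i ∈ B, deg G (v i) + 1 ∧
          (A.card = B.card + 1 ∨ (A.card = B.card ∧
            ((∀ i, i ∈ A ∪ B) ∨ ∃ i, i ∉ A ∪ B ∧ Even (deg G (v i))))))) →
        Splittable G) ∧
      (Odd s → ∀ e : Fin s, Even (deg G (v e)) →
        (∀ a b c : Fin s, (a = e ∨ Odd (deg G (v a))) → (b = e ∨ Odd (deg G (v b))) →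
          (c = e ∨ Odd (deg G (v c))) → deg G (v a) ≠ deg G (v b) →
          deg G (v c) < deg G (v a) + deg G (v b)) →
        (Splittable G ↔ Even G.edgeSet.ncard))) ∧
    (∀ δ : ℕ, 2 ≤ δ → ∃ (V : Type) (_ : Fintype V) (G : SimpleGraph V) (v : Fin 3 → V),
      IsSpine G v ∧ (∀ i, δ ≤ deg G (v i) ∧ deg G (v i) ≤ 2 * δ + 1) ∧
      Even G.edgeSet.ncard ∧ ¬ Splittable G) ∧
    (∀ (V : Type) [Fintype V] (G : SimpleGraph V) (s : ℕ) (v : Fin s → V), 0 < s → IsSpine G v →
      (Even G.edgeSet.ncard ∧ ∃ a b : Fin s → ℕ, (∀ i, a i + b i = deg G (v i)) ∧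
        (∀ k, 2 ≤ k → Even ((univ.filter (fun i => a i = k)).card +
          (univ.filter (fun i => b i = k)).card)) ∧
        (univ.filter (fun i => a i = 0)).card + (univ.filter (fun i => b i = 0)).card ≤ 1) →
      Splittable G) := by
  refine ⟨fun V _ G s v hs h => ⟨fun hG => necessary hs h hG,
    fun hw hC => hw.elim (fun hw => (window h hs hw).2 hC)
      (fun ⟨a, b, hab⟩ => two_valued h hs a b hab hC), fun ho e he hw => ⟨fun hG => (necessary hs h hG).1,
      fun hev => suff_odd h ho hev e he hw⟩⟩, ?_,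
    fun V _ G s v hs h ⟨hev, a, b, hab, hpar, hz⟩ => parity_suff h hs hev a b hab hpar hz⟩
  intro δ hδ
  obtain ⟨V, hV, G, v, h, hd⟩ := exists_cat 3 (fun i => if i = 0 then 2 * δ + 1 else
    if i = 1 then δ else δ + 1) (fun i => by split_ifs <;> omega)
  have h0 : deg G (v 0) = 2 * δ + 1 := by rw [hd]; rfl
  have h1 : deg G (v 1) = δ := by rw [hd]; rfl
  have h2 : deg G (v 2) = δ + 1 := by rw [hd]; rfl
  obtain ⟨he, hn⟩ := sharp h δ hδ h0 h1 h2
  refine ⟨V, hV, G, v, h, ?_, ?_, hn⟩
  · intro i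
    rw [hd]
    split_ifs <;> omega
  · rw [he]
    exact ⟨2 * δ, by ring⟩

end Pool.Agent.Results.MP_e8e3a0_co.FactorTwo
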