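import Pool.Agent.W_e8e3a0.SixN49

set_option autoImplicit false

open Finset Pool.Agent.W_e8e3a0

namespace Pool.Agent.Results.MP_e8e3a0_co.SmallCases

/-- The splittable caterpillars among those with all spine degrees at most six (spines of any
length) and among those with at most four spine vertices; the order of the spine matters, the
degree list does not decide. -/
theorem result :
    (∀ (V : Type) [Fintype V] (G : SimpleGraph V),
      (∀ (s : ℕ) (v : Fin s → V), 0 < s → IsSpine G v → (∀ i, deg G (v i) ≤ 6) →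
        (Splittable G ↔ Even G.edgeSet.ncard ∧
          ¬ (Even s ∧ ∀ i, deg G (v i) = 2 ∨ deg G (v i) = 5) ∧
          ¬ (Even s ∧ ∀ i, deg G (v i) = 3 ∨ deg G (v i) = 6) ∧
          ¬ (Odd s ∧ ∃ i j : Fin s, ((j : ℕ) = i + 1 ∨ (i : ℕ) = j + 1) ∧ deg G (v i) = 3 ∧
            deg G (v j) = 2 ∧ ∀ k, k ≠ i → k ≠ j → deg G (v k) = 5) ∧
          ¬ (Odd s ∧ ∃ j : Fin s, (j : ℕ) % 2 = 0 ∧ deg G (v j) = 3 ∧
            (∀ k : Fin s, (k : ℕ) % 2 = 1 → deg G (v k) = 2) ∧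
            ∀ k : Fin s, (k : ℕ) % 2 = 0 → k ≠ j → deg G (v k) = 5))) ∧
      (∀ v : Fin 1 → V, IsSpine G v → (Splittable G ↔ Even (deg G (v 0)))) ∧
      (∀ v : Fin 2 → V, IsSpine G v → (Splittable G ↔
        (deg G (v 0) = deg G (v 1) + 1 ∨ deg G (v 1) = deg G (v 0) + 1))) ∧
      (∀ v : Fin 3 → V, IsSpine G v → (Splittable G ↔ Even (∑ i, deg G (v i)) ∧
        ((∀ i, Even (deg G (v i))) ∨
          (∃ i j, i ≠ j ∧ Odd (deg G (v i)) ∧ deg G (v i) = deg G (v j)) ∨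
          (∀ i, 2 * deg G (v i) < ∑ j, deg G (v j)) ∨
          deg G (v 1) = deg G (v 0) + deg G (v 2)))) ∧
      (∀ v : Fin 4 → V, IsSpine G v → (Splittable G ↔ ∃ A B : Finset (Fin 4), Disjoint A B ∧
        ∑ i ∈ A, deg G (v i) = ∑ i ∈ B, deg G (v i) + 1 ∧
        (A.card = B.card ∨ A.card = B.card + 1) ∧ ∀ i, i ∉ A ∪ B → Even (deg G (v i))))) ∧
    (∀ p q : ℕ, 2 ≤ p → p < q → (Odd p ∨ Odd q) →
      ∃ (V V' : Type) (_ : Fintype V) (_ : Fintype V') (G : SimpleGraph V) (G' : SimpleGraph V')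
        (v : Fin 3 → V) (v' : Fin 3 → V'), IsSpine G v ∧ IsSpine G' v' ∧
        (deg G (v 0) = p ∧ deg G (v 1) = p + q ∧ deg G (v 2) = q) ∧
        (deg G' (v' 0) = p + q ∧ deg G' (v' 1) = p ∧ deg G' (v' 2) = q) ∧
        Multiset.map (deg G) Finset.univ.val = Multiset.map (deg G') Finset.univ.val ∧
        Splittable G ∧ ¬ Splittable G') :=
  ⟨fun _ _ _ => ⟨fun _ _ hs h h6 => six h hs h6, fun _ h => short_one h, fun _ h => short_two h,
    fun _ h => short_three h, fun _ h => short_even h (Or.inr rfl)⟩, order⟩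

end Pool.Agent.Results.MP_e8e3a0_co.SmallCases
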