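import Pool.Agent.W_e8e3a0.OrH49
import Pool.Agent.W_e8e3a0.Hard49

set_option autoImplicit false

open Finset Pool.Agent.W_e8e3a0

namespace Pool.Agent.Results.MP_e8e3a0_co.SpineForm

/-- The numbers `u i` are good for `F`: `u i ≤ deg (v i)`, and for each `f` modulo `2` with
`f 0 = f 1 = 0` which is additive on all splittings of the numbers in `F`, the sum over all spine
vertices vanishes, where a spine vertex contributes `f (deg)` if its degree is in `F`, and
`f (u i) + f (deg - u i)` if not. Only the `u i` with `deg (v i) ∉ F` matter in the sum. -/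
def Good {V : Type} [Fintype V] {s : ℕ} (G : SimpleGraph V) (v : Fin s → V) (F : Finset ℕ)
    (u : Fin s → ℕ) : Prop :=
  (∀ i, u i ≤ deg G (v i)) ∧ ∀ f : ℕ → ZMod 2, f 0 = 0 → f 1 = 0 →
    (∀ e ∈ F, ∀ k, k ≤ e → f k + f (e - k) = f e) →
    ∑ i, (if deg G (v i) ∈ F then f (deg G (v i)) else f (u i) + f (deg G (v i) - u i)) = 0

/-- The number of `i` such that `v i` and the next spine vertex both have degree more than `3`. -/
noncomputable def Pairs {V : Type} [Fintype V] {s : ℕ} (G : SimpleGraph V) (v : Fin s → V) : ℕ :=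
  {i : Fin s | 3 < deg G (v i) ∧ ∃ j : Fin s, (j : ℕ) = i + 1 ∧ 3 < deg G (v j)}.ncard

/-- (1) An exact criterion for every caterpillar, in terms of its spine only: each spine degree is
written as a sum of two parts and the spine edges `v t v (t+1)`, `t < s - 1`, are divided into two
classes `C`, `D`. (2) A dual necessary condition. (3) Cases in which it is sufficient, and a case
in which it reduces to the parity of the number of edges. (4) Caterpillars whose spine degrees are,
in any order, `M + 1`, `M` (`n + 1` times) and the `M + 4 * a i`: splitting them is the problem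
PARTITION for the numbers `a i`. -/
theorem result (V : Type) [Fintype V] (G : SimpleGraph V) (s : ℕ) (v : Fin s → V)
    (hs : 0 < s) (h : IsSpine G v) :
    (Splittable G ↔ ∃ (x y : Fin s → ℕ) (C D : Finset ℕ),
      (∀ i, x i + y i = deg G (v i)) ∧
      (∀ k, 2 ≤ k → (univ.filter (fun i => x i = k)).card = (univ.filter (fun i => y i = k)).card) ∧
      Disjoint C D ∧ C ∪ D = range (s - 1) ∧
      (∀ i : Fin s, (C.filter (fun t => t = (i : ℕ) ∨ t + 1 = i)).card ≤ x i ∧
        (D.filter (fun t => t = (i : ℕ) ∨ t + 1 = i)).card ≤ y i) ∧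
      C.card + (univ.filter (fun i => x i = 0)).card =
        D.card + (univ.filter (fun i => y i = 0)).card) ∧
    (Splittable G → Even G.edgeSet.ncard ∧ ∀ F : Finset ℕ, ∃ u, Good G v F u) ∧
    (∀ (F : Finset ℕ) (M m : ℕ), M ∈ F →
      (∀ e ∈ F, e ≤ M ∧ m ≤ {i | deg G (v i) = e}.ncard) →
      ((100 * (M + {i | deg G (v i) ∉ F}.ncard + 1) ≤ m ∧
          (3 ∈ F ∨ (∃ c ∈ F, c + 1 ∈ F) ∨ 2 ∉ F ∨ m ≤ 5 * Pairs G v) ∧
          (∀ i j : Fin s, i < j → deg G (v i) ∉ F → deg G (v j) ∉ F →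
            ∃ k, i < k ∧ k < j ∧ 2 < deg G (v k) ∧ deg G (v k) ∈ F)) ∨
        (30 * (M + 1) ^ 2 ≤ m ∧ ∀ i, deg G (v i) ∈ F) →
        (Splittable G ↔ Even G.edgeSet.ncard ∧ ∃ u, Good G v F u)) ∧
      (100 * (M + 1) ≤ m →
        (3 ∈ F ∨ (∃ c ∈ F, c + 1 ∈ F) ∨ m ≤ 5 * Pairs G v) →
        (Even G.edgeSet.ncard ∧ ∃ u, Good G v F u ∧ ∀ i, deg G (v i) ∉ F →
          (deg G (v i) ≤ 3 → u i = 1) ∧ (4 ≤ deg G (v i) → 2 ≤ u i ∧ u i + 2 ≤ deg G (v i))) →
        Splittable G) ∧
      (100 * (M + 1) ≤ m → ∀ a ∈ F, a + 1 ∈ F →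
        (∀ e ∈ F, a + 1 < e → ∃ e' ∈ F, a < e' ∧ e' < e ∧ e ≤ 2 * e') →
        (∀ D, Odd D → 2 * M < D → Even {i | deg G (v i) = D}.ncard) →
        (Splittable G ↔ Even G.edgeSet.ncard))) ∧
    (∀ (n : ℕ) (a : Fin n → ℕ) (M : ℕ), Odd M → 4 * ∑ i, a i + 1 < M →
      ∀ σ : Option (Fin n ⊕ Fin (n + 1)) ≃ Fin s, deg G (v (σ none)) = M + 1 →
        (∀ i, deg G (v (σ (some (Sum.inl i)))) = M + 4 * a i) →
        (∀ j, deg G (v (σ (some (Sum.inr j)))) = M) →
        (Splittable G ↔ ∃ S : Finset (Fin n), 2 * ∑ i ∈ S, a i = ∑ i, a i)) := by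
  refine ⟨formZ h, fun hG => ⟨(necessary hs h hG).1, fun F => ?_⟩,
    fun F M m hMF hF => ⟨?_, ?_, ?_⟩, fun n a M hM haM σ hz ha h0 => hard h n a M hM haM σ hz ha h0⟩
  · obtain ⟨u, hu, huf⟩ := rare_nec h hG
    exact ⟨u, hu, huf F⟩
  · rintro (⟨hm, hc, hiso⟩ | ⟨hm, hall⟩)
    · refine ⟨fun hG => ⟨(necessary hs h hG).1, ?_⟩, ?_⟩
      · obtain ⟨u, hu, huf⟩ := rare_nec h hG
        exact ⟨u, hu, huf F⟩
      · rintro ⟨hev, u, hu, hdual⟩
        exact rare_iso2 h hs hev M m F hMF hF hm hc hiso u hu hdual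
    · refine ⟨fun hG => ⟨(necessary hs h hG).1, ?_⟩, fun hc => ?_⟩
      · obtain ⟨u, hu, huf⟩ := rare_nec h hG
        exact ⟨u, hu, huf F⟩
      · obtain ⟨hev, u, -, hdual⟩ := hc
        refine dual_full h hs hev M (fun i => (hF _ (hall i)).1)
          (fun i => le_trans hm (hF _ (hall i)).2) (fun f h0 h1 hf => ?_)
        have h5 := hdual f h0 h1 (fun e he k hk => ?_)
        · rw [Finset.sum_congr rfl (fun i _ => if_pos (hall i))] at h5
          exact h5
        · have h6 : 0 < {i | deg G (v i) = e}.ncard := by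
            refine lt_of_lt_of_le ?_ (le_trans hm (hF e he).2)
            positivity
          obtain ⟨i, hi⟩ := (Set.ncard_pos (Set.toFinite _)).1 h6
          have h7 : deg G (v i) = e := hi
          rw [← h7] at hk ⊢
          exact hf i k hk
  · rintro hm hc ⟨hev, u, ⟨-, hdual⟩, hu⟩
    have hM1 : 1 ≤ M := by
      have h6 : 0 < {i | deg G (v i) = M}.ncard := by
        have h7 := (hF M hMF).2
        omega
      obtain ⟨i, hi⟩ := (Set.ncard_pos (Set.toFinite _)).1 h6
      have h8 : deg G (v i) = M := hi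
      have h9 := h.two i
      omega
    refine rare_full2 h hs hev M hM1 F (fun e he => (hF e he).1) u hu
      (fun e he => le_trans hm (hF e he).2) ?_ hdual
    rcases hc with hc | hc | hc
    · exact Or.inl hc
    · exact Or.inr (Or.inl hc)
    · refine Or.inr (Or.inr ?_)
      have h10 : m ≤ 5 * {i : Fin s | 3 < deg G (v i) ∧
        ∃ j : Fin s, (j : ℕ) = i + 1 ∧ 3 < deg G (v j)}.ncard := hc
      omega
  · intro hm a ha ha1 hst hodd
    exact rare_consec h hs M F hMF (fun e he => (hF e he).1)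
      (fun e he => le_trans hm (hF e he).2) a ha ha1 hst hodd

end Pool.Agent.Results.MP_e8e3a0_co.SpineForm
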